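import Mathlib.FieldTheory.Galois.Basic
import Mathlib.FieldTheory.Normal.Closure
import Mathlib.FieldTheory.IsAlgClosed.AlgebraicClosure
import Mathlib.GroupTheory.Sylow
import Mathlib.GroupTheory.SpecificGroups.Cyclic

/-!
# Properties of number fields: passage to fields of degree prime to `p`
-/

set_option autoImplicit false

namespace Pool.Agent.TH613.MU

/-- algebraic number fields, as subfields of an algebraic closure of `ℚ` -/
abbrev NF := IntermediateField ℚ (AlgebraicClosure ℚ)

/-- `L` is finite over `ℚ`. -/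
def Fin (L : NF) : Prop := FiniteDimensional ℚ L

/-- the degree `[L : ℚ]` -/
noncomputable def deg (L : NF) : ℕ := Module.finrank ℚ L

/-- the group of automorphisms of the field `L` -/
def Aut (L : NF) : Type := L ≃ₐ[ℚ] L

noncomputable instance instGroupAut (L : NF) : Group (Aut L) :=
  @AlgEquiv.aut ℚ L _ _ _

/-- the fixed field in `L` of a group `B` of automorphisms of `L` -/
noncomputable def fix (L : NF) (B : Subgroup (Aut L)) : NF :=
  IntermediateField.lift
    (IntermediateField.fixedField (F := ℚ) (E := L) (show Subgroup (L ≃ₐ[ℚ] L) from B))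

/-- `L` is contained in `K`. -/
def Le (K L : NF) : Prop := K ≤ L

/-- the normal closure of `K` -/
noncomputable def ncl (K : NF) : NF :=
  IntermediateField.normalClosure ℚ K (AlgebraicClosure ℚ)

/-- Every subgroup of `Aut(L)` whose order is a product of two primes is cyclic. -/
def AutCyclic (L : NF) : Prop :=
  ∀ (q r : ℕ), q.Prime → r.Prime → ∀ B : Subgroup (Aut L), Nat.card B = q * r → IsCyclic B

/-- `L` is Galois over `ℚ` with commutative group. -/
def IsAbelianField (L : NF) : Prop :=
  Normal ℚ L ∧ ∀ σ τ : Aut L, σ * τ = τ * σ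

/-- `𝒞` is a class of number fields closed under subfields and normal closures. -/
def ClassClosed (𝒞 : NF → Prop) : Prop :=
  (∀ K L : NF, Le K L → 𝒞 L → 𝒞 K) ∧ ∀ K : NF, Fin K → 𝒞 K → 𝒞 (ncl K)

/-- `P` passes to subfields. -/
def PassesToSubfields (𝒞 P : NF → Prop) : Prop :=
  ∀ K L : NF, Fin L → 𝒞 L → Le K L → P L → P K

/-- `P` passes to Galois extensions of `p`-power degree. -/
def PassesToPExtensions (p : ℕ) (𝒞 P : NF → Prop) : Prop :=
  ∀ L : NF, Fin L → 𝒞 L → ∀ B : Subgroup (Aut L), IsPGroup p B → P (fix L B) → P L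

/-- If `L / L^B` is a Galois extension of degree `q r`, with primes `q, r ≠ p`, whose group `B` is
not cyclic, and `P` holds for `L^C` for each nontrivial subgroup `C` of `B`, then `P` holds for
`L`. -/
def PassesNormRelations (p : ℕ) (𝒞 P : NF → Prop) : Prop :=
  ∀ L : NF, Fin L → 𝒞 L → ∀ (q r : ℕ), q.Prime → r.Prime → q ≠ p → r ≠ p →
    ∀ B : Subgroup (Aut L), Nat.card B = q * r → ¬ IsCyclic B →
      (∀ C : Subgroup (Aut L), C ≤ B → C ≠ ⊥ → P (fix L C)) → P L

/-- A property `P` of the number fields in a class `𝒞`, with the behaviour of the vanishing of the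
`μ`-invariant of the cyclotomic `ℤ_p`-extension. -/
structure MuLike (p : ℕ) (𝒞 : NF → Prop) (P : NF → Prop) : Prop where
  /-- `𝒞` is closed under subfields and normal closures -/
  closed : ClassClosed 𝒞
  /-- `P` passes to subfields -/
  sub : PassesToSubfields 𝒞 P
  /-- Iwasawa: `P` passes to Galois extensions of `p`-power degree -/
  iwasawa : PassesToPExtensions p 𝒞 P
  /-- norm relations -/
  norm : PassesNormRelations p 𝒞 P
  /-- Ferrero and Washington: `P` holds for abelian number fields -/
  abelian : ∀ L : NF, Fin L → 𝒞 L → IsAbelianField L → P L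

theorem fix_le (L : NF) (B : Subgroup (Aut L)) : Le (fix L B) L :=
  IntermediateField.lift_le _

theorem finite_fix (L : NF) (hL : Fin L) (B : Subgroup (Aut L)) : Fin (fix L B) := by
  have : FiniteDimensional ℚ L := hL
  exact Module.Finite.equiv
    (IntermediateField.liftAlgEquiv (IntermediateField.fixedField (F := ℚ) (E := L)
      (show Subgroup (L ≃ₐ[ℚ] L) from B))).toLinearEquiv

theorem deg_fix (L : NF) (hL : Fin L) (B : Subgroup (Aut L)) :
    deg (fix L B) * Nat.card B = deg L := by
  have : FiniteDimensional ℚ L := hL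
  have h1 : Module.finrank ℚ (fix L B) = Module.finrank ℚ
      (IntermediateField.fixedField (F := ℚ) (E := L) (show Subgroup (L ≃ₐ[ℚ] L) from B)) :=
    (IntermediateField.liftAlgEquiv _).toLinearEquiv.finrank_eq.symm
  have h2 := IntermediateField.finrank_fixedField_eq_card (F := ℚ) (E := L)
    (show Subgroup (L ≃ₐ[ℚ] L) from B)
  have h3 := Module.finrank_mul_finrank ℚ
    (IntermediateField.fixedField (F := ℚ) (E := L) (show Subgroup (L ≃ₐ[ℚ] L) from B)) L
  unfold deg
  rw [h1, ← h3, h2]
  rfl

theorem one_lt_card (L : NF) (hL : Fin L) {C : Subgroup (Aut L)} (hC : C ≠ ⊥) :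
    1 < Nat.card C := by
  have : FiniteDimensional ℚ L := hL
  have hf : Finite (Aut L) := inferInstanceAs (Finite (L ≃ₐ[ℚ] L))
  rw [Subgroup.one_lt_card_iff_ne_bot]
  exact hC

theorem deg_pos (L : NF) (hL : Fin L) : 0 < deg L := by
  have : FiniteDimensional ℚ L := hL
  exact Module.finrank_pos

theorem card_aut_ncl (K : NF) (hK : Fin K) : Nat.card (Aut (ncl K)) = deg (ncl K) := by
  have : FiniteDimensional ℚ K := hK
  have h1 : FiniteDimensional ℚ (ncl K) := normalClosure.is_finiteDimensional ℚ K _
  have h2 : Normal ℚ (ncl K) := normalClosure.normal ℚ K _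
  have h3 : IsGalois ℚ (ncl K) := ⟨⟩
  exact IsGalois.card_aut_eq_finrank ℚ (ncl K)

theorem fin_ncl (K : NF) (hK : Fin K) : Fin (ncl K) := by
  have : FiniteDimensional ℚ K := hK
  exact normalClosure.is_finiteDimensional ℚ K _

theorem le_ncl (K : NF) : Le K (ncl K) := IntermediateField.le_normalClosure K

variable {p : ℕ} {𝒞 P : NF → Prop}

theorem prime_to_p (h : MuLike p 𝒞 P)
    (hT : ∀ K : NF, Fin K → 𝒞 K → ¬ p ∣ deg K → AutCyclic K → ¬ IsAbelianField K → P K)
    (n : ℕ) : ∀ K : NF, Fin K → 𝒞 K → deg K = n → ¬ p ∣ deg K → P K := by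
  induction n using Nat.strong_induction_on with
  | _ n ih =>
    intro K hK hCK hn hp
    by_cases hA : AutCyclic K
    · by_cases hab : IsAbelianField K
      · exact h.abelian K hK hCK hab
      · exact hT K hK hCK hp hA hab
    · unfold AutCyclic at hA
      push Not at hA
      obtain ⟨q, r, hq, hr, B, hB, hcyc⟩ := hA
      have hdiv : q * r ∣ deg K := by
        rw [← hB]
        exact ⟨_, by rw [mul_comm]; exact (deg_fix K hK B).symm⟩
      have hqp : q ≠ p := by
        rintro rfl
        exact hp (dvd_trans (dvd_mul_right _ _) hdiv)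
      have hrp : r ≠ p := by
        rintro rfl
        exact hp (dvd_trans (dvd_mul_left _ _) hdiv)
      refine h.norm K hK hCK q r hq hr hqp hrp B hB hcyc ?_
      intro C _ hC
      have h1 := deg_fix K hK C
      have hfd := finite_fix K hK C
      have hpos := deg_pos _ hfd
      have hcard := one_lt_card K hK hC
      refine ih (deg (fix K C)) ?_ (fix K C) hfd (h.closed.1 _ _ (fix_le K C) hCK) rfl ?_
      · rw [← hn, ← h1]
        exact lt_mul_of_one_lt_right hpos hcard
      · intro hd
        apply hp
        rw [← h1]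
        exact dvd_mul_of_dvd_left hd _

/-- It is enough to prove `P` for the non-abelian fields of degree prime to `p` in which each group
of automorphisms of order `q r` is cyclic. -/
theorem main (hp : p.Prime) (h : MuLike p 𝒞 P) :
    (∀ K : NF, Fin K → 𝒞 K → P K) ↔
      ∀ K : NF, Fin K → 𝒞 K → ¬ p ∣ deg K → AutCyclic K → ¬ IsAbelianField K → P K := by
  constructor
  · intro hall K hK hCK _ _ _
    exact hall K hK hCK
  · intro hT K hK hCK
    have : Fact p.Prime := ⟨hp⟩
    have hCN : 𝒞 (ncl K) := h.closed.2 K hK hCK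
    have hN := fin_ncl K hK
    have hcard := card_aut_ncl K hK
    have hf : Finite (Aut (ncl K)) := by
      have : FiniteDimensional ℚ (ncl K) := hN
      exact inferInstanceAs (Finite (ncl K ≃ₐ[ℚ] ncl K))
    obtain ⟨S⟩ : Nonempty (Sylow p (Aut (ncl K))) := inferInstance
    have hfix := deg_fix (ncl K) hN (S : Subgroup (Aut (ncl K)))
    have hfd := finite_fix (ncl K) hN (S : Subgroup (Aut (ncl K)))
    have hnd : ¬ p ∣ deg (fix (ncl K) S) := by
      have hidx : ¬ p ∣ (S : Subgroup (Aut (ncl K))).index := S.not_dvd_index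
      have h2 := (S : Subgroup (Aut (ncl K))).index_mul_card
      rw [hcard, ← hfix] at h2
      have hSpos : 0 < Nat.card (S : Subgroup (Aut (ncl K))) := Nat.card_pos
      have h3 := Nat.eq_of_mul_eq_mul_right hSpos h2
      rwa [← h3]
    have hPfix : P (fix (ncl K) S) :=
      prime_to_p h hT _ (fix (ncl K) S) hfd (h.closed.1 _ _ (fix_le _ _) hCN) rfl hnd
    have hPN : P (ncl K) := h.iwasawa _ hN hCN S S.isPGroup' hPfix
    exact h.sub K _ hN hCN (le_ncl K) hPN

end Pool.Agent.TH613.MU
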